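import Pool.Agent.W541.DL.Stm

/-!
# The law of the largest length over a set of paths
-/

set_option autoImplicit false

namespace Pool.Agent.W885.DL.LAWK

open MeasureTheory ProbabilityTheory Filter Topology Pool.Agent.W541.DL

/-! ### Countable sets of paths -/

theorem sSup_eq_of_ub {A B : Set ℝ} (h : upperBounds A = upperBounds B)
    (hne : A.Nonempty ↔ B.Nonempty) : sSup A = sSup B := by
  by_cases hA : A.Nonempty
  · have hB := hne.1 hA
    by_cases hb : BddAbove A
    · have hb' : BddAbove B := by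
        obtain ⟨c, hc⟩ := hb
        exact ⟨c, h ▸ hc⟩
      have h1 := isLUB_csSup hA hb
      have h2 := isLUB_csSup hB hb'
      have h3 : IsLUB B (sSup A) := by
        unfold IsLUB at h1 ⊢
        rw [← h]
        exact h1
      exact h3.unique h2
    · have hb' : ¬ BddAbove B := by
        rintro ⟨c, hc⟩
        exact hb ⟨c, h ▸ hc⟩
      rw [Real.sSup_of_not_bddAbove hb, Real.sSup_of_not_bddAbove hb']
  · have hB : ¬ B.Nonempty := fun h' => hA (hne.2 h')
    rw [Set.not_nonempty_iff_eq_empty] at hA hB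
    rw [hA, hB]

theorem continuous_pathVal (w : ℕ → ℝ → ℝ) (n : ℕ) (hw : ∀ k, Continuous (w k)) :
    Continuous (pathVal w n) := by
  unfold pathVal
  refine continuous_finset_sum _ fun k _ => ?_
  exact ((hw k).comp (continuous_apply _)).sub ((hw k).comp (continuous_apply _))

theorem exists_countable (K : Set (ℕ → ℝ)) : ∃ D : Set (ℕ → ℝ), D.Countable ∧ D ⊆ K ∧
    ∀ (w : ℕ → ℝ → ℝ) (n : ℕ), (∀ k, Continuous (w k)) → supK w n K = supK w n D := by
  obtain ⟨s, hs, hd⟩ := TopologicalSpace.exists_countable_dense (K : Type)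
  refine ⟨Subtype.val '' s, hs.image _, ?_, ?_⟩
  · rintro _ ⟨x, _, rfl⟩
    exact x.2
  · intro w n hw
    have hc := continuous_pathVal w n hw
    unfold supK
    apply sSup_eq_of_ub
    · ext c
      constructor
      · intro h x hx
        obtain ⟨τ, ⟨y, _, rfl⟩, rfl⟩ := hx
        exact h ⟨y.1, y.2, rfl⟩
      · intro h x hx
        obtain ⟨τ, hτ, rfl⟩ := hx
        have hcl : IsClosed {y : K | pathVal w n y.1 ≤ c} :=
          isClosed_le (hc.comp continuous_subtype_val) continuous_const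
        have hsub : s ⊆ {y : K | pathVal w n y.1 ≤ c} := by
          intro y hy
          exact h ⟨y.1, ⟨y, hy, rfl⟩, rfl⟩
        have h1 : (⟨τ, hτ⟩ : K) ∈ closure s := hd _
        exact hcl.closure_subset_iff.2 hsub h1
    · constructor
      · rintro ⟨_, τ, hτ, rfl⟩
        haveI : Nonempty K := ⟨⟨τ, hτ⟩⟩
        obtain ⟨y, hy⟩ := hd.nonempty
        exact ⟨_, y.1, ⟨y, hy, rfl⟩, rfl⟩
      · rintro ⟨_, _, ⟨y, _, rfl⟩, rfl⟩
        exact ⟨_, y.1, y.2, rfl⟩

/-! ### The law of the process -/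

theorem meas_res {Ω : Type} [MeasurableSpace Ω] {P : Measure Ω} {W : ℕ → ℝ → Ω → ℝ}
    (h : IsBM P W) (I : Finset (ℕ × ℝ)) :
    Measurable (fun ω => I.restrict (fun p : ℕ × ℝ => W p.1 p.2 ω)) :=
  measurable_pi_lambda _ fun _ => h.meas _ _

theorem mean_toLp {Ω : Type} [MeasurableSpace Ω] {P : Measure Ω} {W : ℕ → ℝ → Ω → ℝ}
    (h : IsBM P W) (I : Finset (ℕ × ℝ)) :
    ∫ x, id x ∂((P.map (fun ω => I.restrict (fun p : ℕ × ℝ => W p.1 p.2 ω))).map
      ((PiLp.continuousLinearEquiv 2 ℝ (fun _ : I => ℝ)).symm)) = 0 := by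
  have hm := meas_res h I
  have hi : ∀ i : I, Integrable (fun ω => W i.1.1 i.1.2 ω) P := fun i =>
    (h.gauss.hasGaussianLaw_eval i.1).integrable
  rw [integral_map, integral_map hm.aemeasurable]
  · simp only [id_eq]
    rw [ContinuousLinearEquiv.integral_comp_comm]
    have : ∫ ω, I.restrict (fun p : ℕ × ℝ => W p.1 p.2 ω) ∂P = 0 := by
      ext i
      rw [eval_integral]
      · simpa using h.mean _ _
      · exact hi
    rw [this, map_zero]
  all_goals fun_prop

theorem cov_toLp {Ω : Type} [MeasurableSpace Ω] {P : Measure Ω} {W : ℕ → ℝ → Ω → ℝ}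
    (h : IsBM P W) (I : Finset (ℕ × ℝ)) (x y : EuclideanSpace ℝ I) :
    covarianceBilin ((P.map (fun ω => I.restrict (fun p : ℕ × ℝ => W p.1 p.2 ω))).map
      ((PiLp.continuousLinearEquiv 2 ℝ (fun _ : I => ℝ)).symm)) x y =
    ∑ i : I, ∑ j : I, x i * y j * (if i.1.1 = j.1.1 then
      (|i.1.2| + |j.1.2| - |i.1.2 - j.1.2|) / 2 else 0) := by
  haveI : IsProbabilityMeasure P := h.gauss.isProbabilityMeasure
  have hm := meas_res h I
  have hL : ∀ i : I, MemLp (fun ω => W i.1.1 i.1.2 ω) 2 P := fun i =>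
    (h.gauss.hasGaussianLaw_eval i.1).memLp_two
  rw [Measure.map_map (by fun_prop) hm]
  have e : ((PiLp.continuousLinearEquiv 2 ℝ (fun _ : I => ℝ)).symm ∘ fun ω =>
      I.restrict (fun p : ℕ × ℝ => W p.1 p.2 ω)) =
      fun ω => WithLp.toLp 2 (fun i : I => (fun (i : I) ω => W i.1.1 i.1.2 ω) i ω) := rfl
  rw [e, covarianceBilin_apply_pi hL]
  refine Finset.sum_congr rfl fun i _ => Finset.sum_congr rfl fun j _ => ?_
  rw [covariance_eq_sub (hL i) (hL j)]
  have h1 : P[fun ω => W i.1.1 i.1.2 ω] = 0 := h.mean _ _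
  have h2 := h.cov i.1.1 j.1.1 i.1.2 j.1.2
  rw [h1, zero_mul, sub_zero, ← h2]
  rfl

theorem fin_law {Ω : Type} [MeasurableSpace Ω] {P : Measure Ω} {W W' : ℕ → ℝ → Ω → ℝ}
    (h : IsBM P W) (h' : IsBM P W') (I : Finset (ℕ × ℝ)) :
    P.map (fun ω => I.restrict (fun p : ℕ × ℝ => W p.1 p.2 ω)) =
      P.map (fun ω => I.restrict (fun p : ℕ × ℝ => W' p.1 p.2 ω)) := by
  apply (MeasurableEquiv.toLp 2 (_ → ℝ)).map_measurableEquiv_injective
  rw [MeasurableEquiv.coe_toLp, ← PiLp.coe_symm_continuousLinearEquiv 2 ℝ]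
  haveI := (h.gauss.hasGaussianLaw I).isGaussian_map
  haveI := (h'.gauss.hasGaussianLaw I).isGaussian_map
  apply IsGaussian.ext
  · rw [mean_toLp h I, mean_toLp h' I]
  · ext x y
    rw [cov_toLp h I, cov_toLp h' I]

theorem proc_law {Ω : Type} [MeasurableSpace Ω] {P : Measure Ω} {W W' : ℕ → ℝ → Ω → ℝ}
    (h : IsBM P W) (h' : IsBM P W') :
    IdentDistrib (fun ω (p : ℕ × ℝ) => W p.1 p.2 ω) (fun ω (p : ℕ × ℝ) => W' p.1 p.2 ω) P P := by
  haveI : IsProbabilityMeasure P := h.gauss.isProbabilityMeasure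
  have e := identDistrib_iff_forall_finset_identDistrib (P := P)
    (X := fun (p : ℕ × ℝ) ω => W p.1 p.2 ω) (Y := fun (p : ℕ × ℝ) ω => W' p.1 p.2 ω)
    (measurable_pi_lambda _ fun _ => h.meas _ _).aemeasurable
    (measurable_pi_lambda _ fun _ => h'.meas _ _).aemeasurable
  rw [e]
  intro I
  exact ⟨(meas_res h I).aemeasurable, (meas_res h' I).aemeasurable, fin_law h h' I⟩

theorem main : S_LAWK := by
  intro Ω _ P W W' n K h h'
  obtain ⟨D, hD, _, hDK⟩ := exists_countable K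
  have hG : Measurable (fun v : ℕ × ℝ → ℝ => supK (fun k t => v (k, t)) n D) := by
    unfold supK pathVal
    apply Measurable.sSup hD
    intro τ _
    refine Finset.measurable_sum _ fun k _ => ?_
    exact (measurable_pi_apply _).sub (measurable_pi_apply _)
  have h1 := (proc_law h h').comp hG
  have e1 : (fun ω => supK (env W ω) n K) =
      (fun v : ℕ × ℝ → ℝ => supK (fun k t => v (k, t)) n D) ∘
        (fun ω (p : ℕ × ℝ) => W p.1 p.2 ω) := by
    funext ω
    exact hDK _ n fun k => h.cont k ω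
  have e2 : (fun ω => supK (env W' ω) n K) =
      (fun v : ℕ × ℝ → ℝ => supK (fun k t => v (k, t)) n D) ∘
        (fun ω (p : ℕ × ℝ) => W' p.1 p.2 ω) := by
    funext ω
    exact hDK _ n fun k => h'.cont k ω
  rw [e1, e2]
  exact h1

end Pool.Agent.W885.DL.LAWK
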